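import Pool.Agent.ITA.Main

/-!
# MP_c801b5_gt: labelled oriented trees directed to or away from one vertex are aspherical

Let `Γ` be a labelled oriented tree in which no vertex is the initial vertex of two edges (i.e. all edges are directed
to one vertex), or no vertex is the terminal vertex of two edges (all edges are directed away from one vertex). The
labels are arbitrary. Then the presentation complex `K(Γ)` is aspherical.

The encoding of the trees is `ITA.IsLOT`, the map `C_2 → C_1` of the universal covering is `ITA.boundary` (Fox
derivatives), and asphericity is `ITA.Aspherical` (the map is injective).
-/

set_option autoImplicit false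

namespace Pool.Agent.Results.MP_c801b5_gt.DirectedTrees

/-- Labelled oriented trees directed to or away from one vertex are aspherical. -/
theorem result {n : ℕ} (L : Fin n → Fin n → Option (Fin n)) (hL : ITA.IsLOT L)
    (h : (∀ a b c, (L a b).isSome = true → (L a c).isSome = true → b = c) ∨
      (∀ a b c, (L b a).isSome = true → (L c a).isSome = true → b = c)) : ITA.Aspherical L := by
  rcases h with h | h
  · exact ITA.asph_in L hL h
  · exact ITA.asph_out L hL h

end Pool.Agent.Results.MP_c801b5_gt.DirectedTrees
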